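import Mathlib

set_option autoImplicit false

namespace Pool.Agent.R15.K3

open Relation Classical

variable {V : Type*} {E : V → V → Prop}

/-- `c` can be reached from `s` by a walk all of whose vertices after `s` lie in `X` -/
def Rch (E : V → V → Prop) (X : Finset V) (s c : V) : Prop :=
  ReflTransGen (fun a b => E a b ∧ b ∈ X) s c

theorem Rch.refl {X : Finset V} {s : V} : Rch E X s s := ReflTransGen.refl

theorem Rch.mono {X Y : Finset V} (h : X ⊆ Y) {s c : V} (hr : Rch E X s c) : Rch E Y s c := by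
  unfold Rch at *
  exact ReflTransGen.mono (fun a b hab => ⟨hab.1, h hab.2⟩) _ _ hr

theorem Rch.trans {X : Finset V} {a b c : V} (h : Rch E X a b) (h' : Rch E X b c) : Rch E X a c :=
  ReflTransGen.trans h h'

theorem Rch.step {X : Finset V} {a b c : V} (h : Rch E X a b) (h1 : E b c) (h2 : c ∈ X) :
    Rch E X a c := ReflTransGen.tail h ⟨h1, h2⟩

theorem Rch.head {X : Finset V} {a b c : V} (h1 : E a b) (h2 : b ∈ X) (h : Rch E X b c) :
    Rch E X a c := ReflTransGen.head ⟨h1, h2⟩ h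

theorem Rch.mem {X : Finset V} {s c : V} (h : Rch E X s c) : c = s ∨ c ∈ X := by
  rcases ReflTransGen.cases_tail h with h | ⟨b, _, h⟩
  · exact Or.inl h
  · exact Or.inr h.2

theorem Rch.cases {X : Finset V} {s c : V} (h : Rch E X s c) :
    s = c ∨ ∃ n, E s n ∧ n ∈ X ∧ Rch E X n c := by
  rcases ReflTransGen.cases_head h with h | ⟨b, h1, h2⟩
  · exact Or.inl h
  · exact Or.inr ⟨b, h1.1, h1.2, h2⟩

/-- invariance -/
theorem Rch.inv {X : Finset V} {s c : V} (h : Rch E X s c) (P : V → Prop) (h0 : P s)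
    (hs : ∀ a b, P a → E a b → b ∈ X → P b) : P c := by
  unfold Rch at h
  induction h with
  | refl => exact h0
  | tail _ h2 ih => exact hs _ _ ih h2.1 h2.2

/-- a walk restricted to the set of vertices it can visit -/
theorem Rch.restrict {X Y : Finset V} {s c : V} (h : Rch E X s c)
    (hY : ∀ b, Rch E X s b → b ∈ X → b ∈ Y) : Rch E Y s c := by
  unfold Rch at h
  induction h with
  | refl => exact ReflTransGen.refl
  | tail h1 h2 ih => exact ih.step h2.1 (hY _ (ReflTransGen.tail h1 h2) h2.2)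

/-- the last vertex of a walk in `A` -/
theorem Rch.last {X : Finset V} {s c : V} (h : Rch E X s c) (A : V → Prop) (hA : A s)
    (Y : Finset V) (hY : ∀ x ∈ X, ¬ A x → x ∈ Y) :
    ∃ e, A e ∧ Rch E X s e ∧ Rch E Y e c := by
  unfold Rch at h
  induction h with
  | refl => exact ⟨s, hA, ReflTransGen.refl, ReflTransGen.refl⟩
  | @tail b c h1 h2 ih =>
    by_cases hc : A c
    · exact ⟨c, hc, ReflTransGen.tail h1 h2, ReflTransGen.refl⟩
    · obtain ⟨e, e1, e2, e3⟩ := ih
      exact ⟨e, e1, e2, e3.step h2.1 (hY _ h2.2 hc)⟩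

/-- the first vertex of a walk in `A` -/
theorem Rch.first {X : Finset V} {s c : V} (h : Rch E X s c) (A : V → Prop)
    (Y : Finset V) (hY : ∀ x ∈ X, ¬ A x → x ∈ Y) :
    Rch E Y s c ∨
    ∃ d q, Rch E Y s d ∧ E d q ∧ q ∈ X ∧ A q ∧ Rch E X q c := by
  unfold Rch at h
  induction h with
  | refl => exact Or.inl ReflTransGen.refl
  | @tail b c h1 h2 ih =>
    rcases ih with ih | ⟨d, q, i1, i2, i3, i4, i5⟩
    · by_cases hc : A c
      · exact Or.inr ⟨b, c, ih, h2.1, h2.2, hc, ReflTransGen.refl⟩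
      · exact Or.inl (ih.step h2.1 (hY _ h2.2 hc))
    · exact Or.inr ⟨d, q, i1, i2, i3, i4, i5.step h2.1 h2.2⟩

/-- some vertex satisfying `α` can be reached -/
def Wk (E : V → V → Prop) (α : V → Prop) (X : Finset V) (s : V) : Prop := ∃ c, Rch E X s c ∧ α c

theorem Wk.mono {α : V → Prop} {X Y : Finset V} (h : X ⊆ Y) {s : V} (hw : Wk E α X s) :
    Wk E α Y s := by
  obtain ⟨c, h1, h2⟩ := hw
  exact ⟨c, h1.mono h, h2⟩

/-- `T` is a minimal set (a path) leading from `s` to `α` -/
structure Mini (E : V → V → Prop) (α : V → Prop) (T : Finset V) (s : V) : Prop where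
  wk : Wk E α T s
  mini : ∀ t ∈ T, ¬ Wk E α (T.erase t) s

theorem exists_mini {α : V → Prop} {X : Finset V} {s : V} (h : Wk E α X s) :
    ∃ T, T ⊆ X ∧ Mini E α T s := by
  induction hn : X.card using Nat.strong_induction_on generalizing X with
  | _ n ih =>
    by_cases hm : ∀ t ∈ X, ¬ Wk E α (X.erase t) s
    · exact ⟨X, subset_rfl, h, hm⟩
    · push Not at hm
      obtain ⟨t, ht, hw⟩ := hm
      have hc : (X.erase t).card < n := by
        rw [← hn]; exact Finset.card_erase_lt_of_mem ht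
      obtain ⟨T, hT, hM⟩ := ih _ hc hw rfl
      exact ⟨T, hT.trans (Finset.erase_subset _ _), hM⟩

/-- the part of `T` before `p` -/
noncomputable def Bef (E : V → V → Prop) (T : Finset V) (s p : V) : Finset V :=
  T.filter (fun q => Rch E (T.erase p) s q)

section mini
variable {α : V → Prop} {T : Finset V} {s : V}

theorem mem_Bef {p q : V} : q ∈ Bef E T s p ↔ q ∈ T ∧ Rch E (T.erase p) s q := by
  unfold Bef
  rw [Finset.mem_filter]

theorem not_mem_Bef_self {p : V} (hs : s ∉ T) : p ∉ Bef E T s p := by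
  rw [mem_Bef]
  rintro ⟨h1, h2⟩
  rcases h2.mem with h | h
  · exact hs (h ▸ h1)
  · exact (Finset.notMem_erase _ _) h

/-- a walk in `T.erase p` stays in `Bef p` -/
theorem rch_Bef {p c : V} (h : Rch E (T.erase p) s c) : Rch E (Bef E T s p) s c := by
  apply h.restrict
  intro b hb hb'
  rw [mem_Bef]
  exact ⟨(Finset.mem_erase.mp hb').2, hb⟩

theorem Mini.before (hM : Mini E α T s) {p : V} (hp : p ∈ T) :
    ∃ d, Rch E (Bef E T s p) s d ∧ E d p := by
  obtain ⟨c, hc, hα⟩ := hM.wk
  rcases hc.first (fun x => x = p) (T.erase p)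
    (fun x hx hx' => Finset.mem_erase.mpr ⟨hx', hx⟩) with h | ⟨d, q, h1, h2, _, h4, _⟩
  · exact absurd ⟨c, h, hα⟩ (hM.mini p hp)
  · subst h4
    exact ⟨d, rch_Bef h1, h2⟩

theorem Mini.reach (hM : Mini E α T s) {p : V} (hp : p ∈ T) : Rch E T s p := by
  obtain ⟨d, h1, h2⟩ := hM.before hp
  exact (h1.mono (fun x hx => (mem_Bef.mp hx).1)).step h2 hp

theorem Mini.after (hM : Mini E α T s) {p : V} (hp : p ∈ T) :
    Wk E α (T \ (insert p (Bef E T s p))) p := by
  obtain ⟨c, hc, hα⟩ := hM.wk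
  obtain ⟨e, e1, _, e3'⟩ := hc.last (fun x => x = s ∨ x = p ∨ x ∈ Bef E T s p) (Or.inl rfl)
    (T \ (insert p (Bef E T s p))) (by
      intro x hx hx'
      rw [Finset.mem_sdiff, Finset.mem_insert]
      exact ⟨hx, fun h => hx' (Or.inr h)⟩)
  by_cases hep : e = p
  · subst hep
    exact ⟨c, e3', hα⟩
  · exfalso
    have h1 : Rch E (T.erase p) s e := by
      rcases e1 with h | h | h
      · subst h; exact Rch.refl
      · exact absurd h hep
      · exact (mem_Bef.mp h).2
    apply hM.mini p hp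
    refine ⟨c, h1.trans (e3'.mono ?_), hα⟩
    intro x hx
    rw [Finset.mem_sdiff, Finset.mem_insert] at hx
    rw [Finset.mem_erase]
    exact ⟨fun h => hx.2 (Or.inl h), hx.1⟩

/-- linearity of the order -/
theorem Mini.linear (hM : Mini E α T s) (hs : s ∉ T) {p n : V} (hp : p ∈ T) (hn : n ∈ T)
    (h1 : n ∉ Bef E T s p) (h2 : n ≠ p) : insert p (Bef E T s p) ⊆ Bef E T s n := by
  have key : ∀ c, Rch E (T.erase p) s c → Rch E ((T.erase p).erase n) s c := by
    intro c hc
    apply hc.restrict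
    intro b hb hb'
    rw [Finset.mem_erase]
    refine ⟨?_, hb'⟩
    rintro rfl
    exact h1 (mem_Bef.mpr ⟨hn, hb⟩)
  have sub : (T.erase p).erase n ⊆ T.erase n := by
    intro x hx
    rw [Finset.mem_erase, Finset.mem_erase] at hx
    rw [Finset.mem_erase]
    exact ⟨hx.1, hx.2.2⟩
  intro q hq
  rw [Finset.mem_insert] at hq
  rw [mem_Bef]
  rcases hq with rfl | hq
  · refine ⟨hp, ?_⟩
    obtain ⟨d, d1, d2⟩ := hM.before hp
    have d1' : Rch E (T.erase q) s d := by
      apply d1.restrict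
      intro b hb hb'
      have := mem_Bef.mp hb'
      rcases this.2.mem with h | h
      · exact absurd (h ▸ this.1) hs
      · exact h
    exact ((key d d1').mono sub).step d2 (Finset.mem_erase.mpr ⟨h2.symm, hp⟩)
  · have := mem_Bef.mp hq
    exact ⟨this.1, (key q this.2).mono sub⟩

theorem Mini.after' (hM : Mini E α T s) (hs : s ∉ T) {p n : V} (hp : p ∈ T) (hn : n ∈ T)
    (h1 : n ∉ Bef E T s p) (h2 : n ≠ p) : Wk E α (T \ (insert p (Bef E T s p))) n := by
  apply (hM.after hn).mono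
  intro x hx
  rw [Finset.mem_sdiff] at hx ⊢
  refine ⟨hx.1, fun h => hx.2 ?_⟩
  exact Finset.mem_insert_of_mem (hM.linear hs hp hn h1 h2 h)

end mini

end Pool.Agent.R15.K3
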