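import Mathlib
import Pool.Agent.R15.K3.Rch

set_option autoImplicit false

namespace Pool.Agent.R15.K3

open Relation Classical

variable {V : Type*} {E : V → V → Prop}

/-- A version of Menger's theorem for two disjoint paths with prescribed types of end. -/
theorem fan {α β : V → Prop} {X : Finset V} {s : V} (hs : s ∉ X) (hα : Wk E α X s)
    (hβ : Wk E β X s) (h : ∀ t ∈ X, Wk E α (X.erase t) s ∨ Wk E β (X.erase t) s) :
    ∃ T O, T ⊆ X ∧ O ⊆ X ∧ Disjoint T O ∧ Wk E α T s ∧ Wk E β O s := by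
  by_contra hno
  have hno' : ∀ T O, T ⊆ X → O ⊆ X → Disjoint T O → Wk E α T s → Wk E β O s → False :=
    fun T O h1 h2 h3 h4 h5 => hno ⟨T, O, h1, h2, h3, h4, h5⟩
  let C : Finset V → Finset V := fun T => X.filter (fun c => Rch E (X \ T) s c)
  have hCmem : ∀ T c, c ∈ C T ↔ c ∈ X ∧ Rch E (X \ T) s c := fun T c => Finset.mem_filter
  obtain ⟨T, hTF, hTmax⟩ := Finset.exists_max_image (X.powerset.filter (fun T => Mini E α T s))
    (fun T => (C T).card) (by
      obtain ⟨T, hT, hM⟩ := exists_mini hα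
      exact ⟨T, Finset.mem_filter.mpr ⟨Finset.mem_powerset.mpr hT, hM⟩⟩)
  rw [Finset.mem_filter, Finset.mem_powerset] at hTF
  obtain ⟨hTX, hM⟩ := hTF
  have hmax : ∀ T', T' ⊆ X → Mini E α T' s → (C T').card ≤ (C T).card := fun T' h1 h2 =>
    hTmax T' (Finset.mem_filter.mpr ⟨Finset.mem_powerset.mpr h1, h2⟩)
  have hsT : s ∉ T := fun h => hs (hTX h)
  set A := C T with hAdef
  have hA : ∀ c, c ∈ A ↔ c ∈ X ∧ Rch E (X \ T) s c := hCmem T
  have hAT : ∀ c ∈ A, c ∉ T := by
    intro c hc hcT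
    obtain ⟨h1, h2⟩ := (hA c).mp hc
    rcases h2.mem with h | h
    · exact hs (h ▸ h1)
    · exact (Finset.mem_sdiff.mp h).2 hcT
  have hAX : A ⊆ X := fun c hc => ((hA c).mp hc).1
  have hAr : ∀ c, Rch E (X \ T) s c → Rch E A s c := by
    intro c hc
    apply hc.restrict
    intro b hb hb'
    exact (hA b).mpr ⟨(Finset.mem_sdiff.mp hb').1, hb⟩
  -- increasing lemma
  have inc : ∀ T' p c0, T' ⊆ X → Wk E α T' s → Disjoint T' A → p ∈ X → p ∉ T' → p ∈ T →
      Rch E (X \ T) s c0 → E c0 p → False := by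
    intro T' p c0 h1 h2 h3 h4 h5 h6 h7 h8
    obtain ⟨T2, hT2, hM2⟩ := exists_mini h2
    have hle := hmax T2 (hT2.trans h1) hM2
    have hAsub : A ⊆ X \ T2 := by
      intro x hx
      rw [Finset.mem_sdiff]
      exact ⟨hAX hx, fun hx2 => (Finset.disjoint_left.mp h3 (hT2 hx2)) hx⟩
    have hsub : insert p A ⊆ C T2 := by
      intro x hx
      rw [Finset.mem_insert] at hx
      rw [hCmem]
      rcases hx with rfl | hx
      · refine ⟨h4, ((hAr c0 h7).mono hAsub).step h8 ?_⟩
        rw [Finset.mem_sdiff]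
        exact ⟨h4, fun h => h5 (hT2 h)⟩
      · exact ⟨hAX hx, (hAr x ((hA x).mp hx).2).mono hAsub⟩
    have hpA : p ∉ A := fun h => hAT p h h6
    have h9 := Finset.card_le_card hsub
    rw [Finset.card_insert_of_notMem hpA] at h9
    omega
  have S0 : ∀ c, Rch E (X \ T) s c → ¬ β c := by
    intro c hc hb
    exact hno' T (X \ T) hTX Finset.sdiff_subset Finset.disjoint_sdiff hM.wk ⟨c, hc, hb⟩
  -- the first vertex on T reached
  obtain ⟨c0, hc0, hbc0⟩ := hβ
  obtain ⟨e0, he0, _, he0c⟩ := hc0.last (fun c => Rch E (X \ T) s c) Rch.refl (X \ A)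
    (fun x hx hx' => Finset.mem_sdiff.mpr ⟨hx, fun h => hx' ((hA x).mp h).2⟩)
  rcases he0c.cases with h0 | ⟨n0, hn0, hn0X, hn0c⟩
  · exact S0 _ (h0 ▸ he0) hbc0
  have inT : ∀ e n, Rch E (X \ T) s e → E e n → n ∈ X → n ∉ A → n ∈ T := by
    intro e n h1 h2 h3 h4
    by_contra h5
    exact h4 ((hA n).mpr ⟨h3, h1.step h2 (Finset.mem_sdiff.mpr ⟨h3, h5⟩)⟩)
  have hn0T : n0 ∈ T := by
    rw [Finset.mem_sdiff] at hn0X
    exact inT e0 n0 he0 hn0 hn0X.1 hn0X.2
  obtain ⟨p, hpN, hpmax⟩ := Finset.exists_max_image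
    (T.filter (fun p => ∃ c, Rch E (X \ T) s c ∧ E c p)) (fun p => (Bef E T s p).card)
    ⟨n0, Finset.mem_filter.mpr ⟨hn0T, e0, he0, hn0⟩⟩
  rw [Finset.mem_filter] at hpN
  obtain ⟨hpT, cp, hcp, hcpE⟩ := hpN
  set B := Bef E T s p with hB
  have hBT : B ⊆ T := fun x hx => (mem_Bef.mp hx).1
  have hpB : p ∉ B := not_mem_Bef_self hsT
  set G := (X.erase p) \ (A ∪ B) with hG
  have hGmem : ∀ x, x ∈ G ↔ (x ≠ p ∧ x ∈ X) ∧ x ∉ A ∧ x ∉ B := by
    intro x
    rw [hG, Finset.mem_sdiff, Finset.mem_erase, Finset.mem_union, not_or]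
  have hGA : ∀ x ∈ X.erase p, ¬ (Rch E (X \ T) s x ∨ x ∈ B) → x ∈ G := by
    intro x hx hx'
    rw [Finset.mem_erase] at hx
    rw [hGmem]
    exact ⟨hx, fun h => hx' (Or.inl ((hA x).mp h).2), fun h => hx' (Or.inr h)⟩
  -- a walk leaving from the C-part
  have caseC : ∀ e c, Rch E (X \ T) s e → Rch E G e c → e = c := by
    intro e c h1 h2
    rcases h2.cases with h3 | ⟨n, hn, hnG, _⟩
    · exact h3
    exfalso
    rw [hGmem] at hnG
    obtain ⟨⟨g1, g2⟩, g3, g4⟩ := hnG
    have hnT := inT e n h1 hn g2 g3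
    have h5 := hpmax n (Finset.mem_filter.mpr ⟨hnT, e, h1, hn⟩)
    have h6 := Finset.card_le_card (hM.linear hsT hpT hnT g4 g1)
    rw [Finset.card_insert_of_notMem hpB] at h6
    omega
  have hTG : T \ (insert p B) ⊆ G := by
    intro x hx
    rw [Finset.mem_sdiff, Finset.mem_insert, not_or] at hx
    rw [hGmem]
    exact ⟨⟨hx.2.1, hTX hx.1⟩, fun h => hAT x h hx.1, hx.2.2⟩
  -- if the set B ∪ G leads to α we get a contradiction
  have caseB : ∀ e, e ∈ B → Wk E α (B ∪ G) e → False := by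
    intro e he hw
    obtain ⟨c, c1, c2⟩ := hw
    have hse : Rch E (B ∪ G) s e := (rch_Bef (mem_Bef.mp he).2).mono Finset.subset_union_left
    refine inc (B ∪ G) p cp ?_ ⟨c, hse.trans c1, c2⟩ ?_ (hTX hpT) ?_ hpT hcp hcpE
    · intro x hx
      rcases Finset.mem_union.mp hx with h | h
      · exact hTX (hBT h)
      · exact ((hGmem x).mp h).1.2
    · rw [Finset.disjoint_left]
      intro x hx hxA
      rcases Finset.mem_union.mp hx with h | h
      · exact hAT x hxA (hBT h)
      · exact ((hGmem x).mp h).2.1 hxA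
    · intro hx
      rcases Finset.mem_union.mp hx with h | h
      · exact hpB h
      · exact ((hGmem p).mp h).1.1 rfl
  rcases h p (hTX hpT) with ⟨c, hc, hac⟩ | ⟨c, hc, hbc⟩
  · obtain ⟨e, he, _, hec⟩ := hc.last (fun c => Rch E (X \ T) s c ∨ c ∈ B) (Or.inl Rch.refl) G hGA
    rcases he with he | he
    · have := caseC e c he hec
      subst this
      -- α reached inside A
      refine hno' A (X \ A) hAX Finset.sdiff_subset Finset.disjoint_sdiff ⟨e, hAr e he, hac⟩
        ⟨c0, ?_, hbc0⟩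
      refine ((hM.reach hn0T).mono ?_).trans hn0c
      intro x hx
      rw [Finset.mem_sdiff]
      exact ⟨hTX hx, fun h => hAT x h hx⟩
    · exact caseB e he ⟨c, hec.mono Finset.subset_union_right, hac⟩
  · obtain ⟨e, he, _, hec⟩ := hc.last (fun c => Rch E (X \ T) s c ∨ c ∈ B) (Or.inl Rch.refl) G hGA
    rcases he with he | he
    · have := caseC e c he hec
      subst this
      exact S0 e he hbc
    · rcases hec.first (fun x => x ∈ T) (G \ T) (fun x hx hx' => Finset.mem_sdiff.mpr ⟨hx, hx'⟩) with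
        h1 | ⟨d, q, h1, h2, h3, h4, h5⟩
      · -- success
        have hse : Rch E B s e := rch_Bef (mem_Bef.mp he).2
        refine hno' (A ∪ (T \ B)) (B ∪ (G \ T)) ?_ ?_ ?_ ?_ ?_
        · intro x hx
          rcases Finset.mem_union.mp hx with h | h
          · exact hAX h
          · exact hTX (Finset.mem_sdiff.mp h).1
        · intro x hx
          rcases Finset.mem_union.mp hx with h | h
          · exact hTX (hBT h)
          · exact ((hGmem x).mp (Finset.mem_sdiff.mp h).1).1.2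
        · rw [Finset.disjoint_left]
          intro x hx hx'
          rw [Finset.mem_union, Finset.mem_sdiff] at hx hx'
          rcases hx with hx | hx <;> rcases hx' with hx' | hx'
          · exact hAT x hx (hBT hx')
          · exact ((hGmem x).mp hx'.1).2.1 hx
          · exact hx.2 hx'
          · exact hx'.2 hx.1
        · obtain ⟨c2, k1, k2⟩ := hM.after hpT
          refine ⟨c2, ?_, k2⟩
          refine Rch.trans (b := p) ?_ (k1.mono ?_)
          · refine ((hAr cp hcp).mono Finset.subset_union_left).step hcpE ?_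
            rw [Finset.mem_union, Finset.mem_sdiff]
            exact Or.inr ⟨hpT, hpB⟩
          · intro x hx
            rw [Finset.mem_sdiff, Finset.mem_insert, not_or] at hx
            rw [Finset.mem_union, Finset.mem_sdiff]
            exact Or.inr ⟨hx.1, hx.2.2⟩
        · exact ⟨c, (hse.mono Finset.subset_union_left).trans (h1.mono Finset.subset_union_right),
            hbc⟩
      · -- hits T after p
        have hq := (hGmem q).mp h3
        obtain ⟨c2, k1, k2⟩ := hM.after' hsT hpT h4 hq.2.2 hq.1.1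
        apply caseB e he
        refine ⟨c2, ?_, k2⟩
        have hGsub : G ⊆ B ∪ G := Finset.subset_union_right
        refine Rch.trans (b := q) ?_ (k1.mono (hTG.trans hGsub))
        refine Rch.step (b := d) (h1.mono (Finset.sdiff_subset.trans hGsub)) h2 (hGsub h3)

end Pool.Agent.R15.K3
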