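import Mathlib
import Pool.Agent.R15.K3.Fan

set_option autoImplicit false

namespace Pool.Agent.R15.K3

open Relation Classical

variable {V : Type*}

/-- there is a walk from `a` to `b` whose interior lies in `X` -/
def Wt (E : V → V → Prop) (X : Finset V) (a b : V) : Prop := Wk E (fun c => E c b) X a

theorem Wt.mono {E : V → V → Prop} {X Y : Finset V} (h : X ⊆ Y) {a b : V} (hw : Wt E X a b) :
    Wt E Y a b := Wk.mono h hw

/-- a strong loopless digraph on `H` with all out-degrees at least two, and a vertex `y` -/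
structure Setup (E : V → V → Prop) (H : Finset V) (y : V) : Prop where
  loop : ∀ a, ¬ E a a
  supp : ∀ a c, E a c → a ∈ H ∧ c ∈ H
  deg : ∀ a ∈ H, ∃ c d, c ≠ d ∧ E a c ∧ E a d
  strong : ∀ a ∈ H, ∀ b ∈ H, Rch E H a b
  yH : y ∈ H

structure Piece (E : V → V → Prop) (H : Finset V) (y : V) (B : Finset V) (x : V) : Prop where
  ne : B.Nonempty
  sub : B ⊆ H
  xB : x ∉ B
  yB : y ∉ B
  cl : ∀ a ∈ B, ∀ c, E a c → c ∈ B ∨ c = x

def MinPiece (E : V → V → Prop) (H : Finset V) (y : V) (B : Finset V) (x : V) : Prop :=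
  Piece E H y B x ∧ ∀ B' x', Piece E H y B' x' → B' ⊆ B → B' = B

variable {E : V → V → Prop} {H : Finset V} {y : V}

theorem Piece.exit (S : Setup E H y) {B : Finset V} {x : V} (P : Piece E H y B x) {a : V}
    (ha : a ∈ B) : Wt E B a x := by
  rcases (S.strong a (P.sub ha) y S.yH).first (fun v => v ∉ B) B (fun x _ hx => not_not.mp hx) with
    h | ⟨d, q, h1, h2, _, h4, _⟩
  · rcases h.mem with h | h
    · exact absurd (h ▸ ha) P.yB
    · exact absurd h P.yB
  · have hd : d ∈ B := by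
      rcases h1.mem with h | h
      · exact h ▸ ha
      · exact h
    rcases P.cl d hd q h2 with h | h
    · exact absurd h h4
    · subst h
      exact ⟨d, h1, h2⟩

theorem Piece.xH (S : Setup E H y) {B : Finset V} {x : V} (P : Piece E H y B x) : x ∈ H := by
  obtain ⟨a, ha⟩ := P.ne
  obtain ⟨c, _, h⟩ := P.exit S ha
  exact (S.supp _ _ h).2

theorem exists_minPiece {B : Finset V} {x : V} (P : Piece E H y B x) :
    ∃ B' x', B' ⊆ B ∧ MinPiece E H y B' x' := by
  induction hn : B.card using Nat.strong_induction_on generalizing B x with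
  | _ n ih =>
    by_cases hm : ∀ B' x', Piece E H y B' x' → B' ⊆ B → B' = B
    · exact ⟨B, x, subset_rfl, P, hm⟩
    · push Not at hm
      obtain ⟨B', x', P', hs, hne⟩ := hm
      have hc : B'.card < n := by
        rw [← hn]
        exact Finset.card_lt_card (lt_of_le_of_ne hs hne)
      obtain ⟨B2, x2, h1, h2⟩ := ih _ hc P' rfl
      exact ⟨B2, x2, h1.trans hs, h2⟩

theorem MinPiece.strong {B : Finset V} {x : V} (M : MinPiece E H y B x) {a b : V} (ha : a ∈ B)
    (hb : b ∈ B) : Rch E B a b := by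
  have P : Piece E H y (B.filter (fun c => Rch E B a c)) x := by
    refine ⟨⟨a, Finset.mem_filter.mpr ⟨ha, Rch.refl⟩⟩, ?_, ?_, ?_, ?_⟩
    · exact (Finset.filter_subset _ _).trans M.1.sub
    · intro h; exact M.1.xB (Finset.mem_filter.mp h).1
    · intro h; exact M.1.yB (Finset.mem_filter.mp h).1
    · intro c hc d hd
      rw [Finset.mem_filter] at hc
      rcases M.1.cl c hc.1 d hd with h | h
      · exact Or.inl (Finset.mem_filter.mpr ⟨h, hc.2.step hd h⟩)
      · exact Or.inr h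
  have := M.2 _ _ P (Finset.filter_subset _ _)
  rw [← this, Finset.mem_filter] at hb
  exact hb.2

theorem MinPiece.two {B : Finset V} {x : V} (M : MinPiece E H y B x) {z t : V} (hz : z ∈ B)
    (ht : t ∈ B) (hzt : z ≠ t) : Wt E (B.erase t) z x := by
  by_contra hno
  have hno' : ∀ c, Rch E (B.erase t) z c → ¬ E c x := fun c h1 h2 => hno ⟨c, h1, h2⟩
  set B' := insert z ((B.erase t).filter (fun c => Rch E (B.erase t) z c)) with hB'
  have hr : ∀ c ∈ B', Rch E (B.erase t) z c := by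
    intro c hc
    rw [hB', Finset.mem_insert, Finset.mem_filter] at hc
    rcases hc with rfl | hc
    · exact Rch.refl
    · exact hc.2
  have hsub : B' ⊆ B := by
    intro c hc
    rw [hB', Finset.mem_insert, Finset.mem_filter] at hc
    rcases hc with rfl | hc
    · exact hz
    · exact (Finset.mem_erase.mp hc.1).2
  have htB : t ∉ B' := by
    intro h
    rw [hB', Finset.mem_insert, Finset.mem_filter] at h
    rcases h with h | h
    · exact hzt h.symm
    · exact (Finset.notMem_erase _ _) h.1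
  have P : Piece E H y B' t := by
    refine ⟨⟨z, Finset.mem_insert_self _ _⟩, hsub.trans M.1.sub, htB, fun h => M.1.yB (hsub h), ?_⟩
    intro c hc d hd
    have hrc := hr c hc
    rcases M.1.cl c (hsub hc) d hd with h | h
    · by_cases hdt : d = t
      · exact Or.inr hdt
      · left
        have hde : d ∈ B.erase t := Finset.mem_erase.mpr ⟨hdt, h⟩
        rw [hB', Finset.mem_insert, Finset.mem_filter]
        exact Or.inr ⟨hde, hrc.step hd hde⟩
    · exact absurd (h ▸ hd) (hno' c hrc)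
  have := M.2 _ _ P hsub
  exact htB (this ▸ ht)

theorem MinPiece.out (S : Setup E H y) {B : Finset V} {x : V} (M : MinPiece E H y B x) {b : V}
    (hb : b ∈ B) : ∃ o ∈ B, E b o := by
  obtain ⟨c, d, hcd, h1, h2⟩ := S.deg b (M.1.sub hb)
  rcases M.1.cl b hb c h1 with h | h
  · exact ⟨c, h, h1⟩
  · rcases M.1.cl b hb d h2 with h' | h'
    · exact ⟨d, h', h2⟩
    · exact absurd (h.trans h'.symm) hcd

/-- the local structure at a vertex `b` of a minimal piece -/
structure Theta (E : V → V → Prop) (B : Finset V) (x b u : V) (X1 X2 X3 X5 : Finset V) : Prop where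
  ub : u ≠ b
  uB : u ∈ B
  s1 : X1 ⊆ (B.erase b).erase u
  s2 : X2 ⊆ (B.erase b).erase u
  s3 : X3 ⊆ (B.erase b).erase u
  s5 : X5 ⊆ (B.erase b).erase u
  d12 : Disjoint X1 X2
  d13 : Disjoint X1 X3
  d15 : Disjoint X1 X5
  d23 : Disjoint X2 X3
  d25 : Disjoint X2 X5
  d35 : Disjoint X3 X5
  w1 : Wt E X1 u b
  w2 : Wt E X2 b u
  w3 : Wt E X3 b x
  w5 : Wt E X5 u x

theorem theta_aux {B : Finset V} {x b u : V} {P Q : Finset V} (hP : P ⊆ B.erase b)
    (hQ : Q ⊆ B.erase b) (hPQ : Disjoint P Q) (hM : Mini E (fun c => E c x ∧ c ≠ b) P b)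
    (hw : Wt E Q b x) (hu : u ∈ P) (hR : Wt E ((B \ (P ∪ Q)).erase b) u b) :
    ∃ X1 X2 X3 X5, Theta E B x b u X1 X2 X3 X5 := by
  have hbP : b ∉ P := fun h => (Finset.notMem_erase _ _) (hP h)
  have hub : u ≠ b := fun h => hbP (h ▸ hu)
  have huQ : u ∉ Q := fun h => (Finset.disjoint_left.mp hPQ hu) h
  have huBef : u ∉ Bef E P b u := not_mem_Bef_self hbP
  have hBef : Bef E P b u ⊆ P := fun z hz => (mem_Bef.mp hz).1
  refine ⟨(B \ (P ∪ Q)).erase b, Bef E P b u, Q, P \ (insert u (Bef E P b u)),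
    hub, (Finset.mem_erase.mp (hP hu)).2, ?_, ?_, ?_, ?_, ?_, ?_, ?_, ?_, ?_, ?_, hR, ?_, hw, ?_⟩
  · intro z hz
    rw [Finset.mem_erase, Finset.mem_sdiff, Finset.mem_union, not_or] at hz
    rw [Finset.mem_erase, Finset.mem_erase]
    exact ⟨fun h => hz.2.2.1 (h ▸ hu), hz.1, hz.2.1⟩
  · intro z hz
    rw [Finset.mem_erase]
    exact ⟨fun h => huBef (h ▸ hz), hP (hBef hz)⟩
  · intro z hz
    rw [Finset.mem_erase]
    exact ⟨fun h => huQ (h ▸ hz), hQ hz⟩
  · intro z hz
    rw [Finset.mem_sdiff, Finset.mem_insert, not_or] at hz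
    rw [Finset.mem_erase]
    exact ⟨hz.2.1, hP hz.1⟩
  · rw [Finset.disjoint_left]
    intro z hz hz'
    rw [Finset.mem_erase, Finset.mem_sdiff, Finset.mem_union, not_or] at hz
    exact hz.2.2.1 (hBef hz')
  · rw [Finset.disjoint_left]
    intro z hz hz'
    rw [Finset.mem_erase, Finset.mem_sdiff, Finset.mem_union, not_or] at hz
    exact hz.2.2.2 hz'
  · rw [Finset.disjoint_left]
    intro z hz hz'
    rw [Finset.mem_erase, Finset.mem_sdiff, Finset.mem_union, not_or] at hz
    exact hz.2.2.1 (Finset.mem_sdiff.mp hz').1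
  · rw [Finset.disjoint_left]
    intro z hz hz'
    exact (Finset.disjoint_left.mp hPQ (hBef hz)) hz'
  · rw [Finset.disjoint_left]
    intro z hz hz'
    rw [Finset.mem_sdiff, Finset.mem_insert, not_or] at hz'
    exact hz'.2.2 hz
  · rw [Finset.disjoint_left]
    intro z hz hz'
    exact (Finset.disjoint_left.mp hPQ (Finset.mem_sdiff.mp hz').1) hz
  · exact hM.before hu
  · obtain ⟨c, h1, h2⟩ := hM.after hu
    exact ⟨c, h1, h2.1⟩

theorem MinPiece.theta (S : Setup E H y) {B : Finset V} {x : V} (M : MinPiece E H y B x) {b : V}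
    (hb : b ∈ B) : ∃ u X1 X2 X3 X5, Theta E B x b u X1 X2 X3 X5 := by
  obtain ⟨o, ho, hbo⟩ := M.out S hb
  have hob : o ≠ b := fun h => S.loop b (h ▸ hbo)
  set α : V → Prop := fun c => E c x ∧ c ≠ b with hα
  have hoe : o ∈ B.erase b := Finset.mem_erase.mpr ⟨hob, ho⟩
  have hw : Wk E α (B.erase b) b := by
    obtain ⟨c, h1, h2⟩ := M.two ho hb hob
    refine ⟨c, h1.head hbo hoe, h2, ?_⟩
    rcases h1.mem with h | h
    · rw [h]; exact hob
    · exact (Finset.mem_erase.mp h).1
  -- two disjoint paths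
  have two : ∃ P Q, P ⊆ B.erase b ∧ Q ⊆ B.erase b ∧ Disjoint P Q ∧ Mini E α P b ∧ Wt E Q b x ∧
      (Q = ∅ ∨ Mini E α Q b) := by
    by_cases hbx : E b x
    · obtain ⟨P, hP, hM⟩ := exists_mini hw
      exact ⟨P, ∅, hP, by simp, by simp, hM, ⟨b, Rch.refl, hbx⟩, Or.inl rfl⟩
    · obtain ⟨T, O, hT, hO, hTO, h1, h2⟩ := fan (E := E) (α := α) (β := α) (X := B.erase b) (s := b)
        (Finset.notMem_erase _ _) hw hw (by
          intro t ht
          left
          rw [Finset.mem_erase] at ht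
          obtain ⟨c, h1, h2⟩ := M.two hb ht.2 ht.1.symm
          have hcb : c ≠ b := fun h => hbx (h ▸ h2)
          obtain ⟨e, e1, _, e3⟩ := h1.last (fun v => v = b) rfl ((B.erase b).erase t) (by
            intro v hv hv'
            rw [Finset.mem_erase] at hv
            rw [Finset.mem_erase, Finset.mem_erase]
            exact ⟨hv.1, hv', hv.2⟩)
          subst e1
          exact ⟨c, e3, h2, hcb⟩)
      obtain ⟨P, hP, hMP⟩ := exists_mini h1
      obtain ⟨Q, hQ, hMQ⟩ := exists_mini h2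
      refine ⟨P, Q, hP.trans hT, hQ.trans hO, ?_, hMP, ?_, Or.inr hMQ⟩
      · exact Finset.disjoint_of_subset_left hP (Finset.disjoint_of_subset_right hQ hTO)
      · obtain ⟨c, k1, k2⟩ := hMQ.wk
        exact ⟨c, k1, k2.1⟩
  obtain ⟨P, Q, hP, hQ, hPQ, hMP, hwQ, hQ'⟩ := two
  obtain ⟨i, hi1, hi2⟩ := hMP.wk
  have hiP : i ∈ P := by
    rcases hi1.mem with h | h
    · exact absurd h hi2.2
    · exact h
  obtain ⟨u, hu, _, hur⟩ := (M.strong (Finset.mem_erase.mp (hP hiP)).2 hb).last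
    (fun v => v ∈ P ∪ Q) (Finset.mem_union_left _ hiP) (B \ (P ∪ Q))
    (fun v hv hv' => Finset.mem_sdiff.mpr ⟨hv, hv'⟩)
  have hPQb : P ∪ Q ⊆ B.erase b := Finset.union_subset hP hQ
  have hub : u ≠ b := (Finset.mem_erase.mp (hPQb hu)).1
  have hR : Wt E ((B \ (P ∪ Q)).erase b) u b := by
    rcases hur.first (fun v => v = b) ((B \ (P ∪ Q)).erase b)
      (fun v hv hv' => Finset.mem_erase.mpr ⟨hv', hv⟩) with h | ⟨d, q, h1, h2, _, h4, _⟩
    · rcases h.mem with h | h
      · exact absurd h.symm hub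
      · exact absurd h (Finset.notMem_erase _ _)
    · subst h4
      exact ⟨d, h1, h2⟩
  rcases Finset.mem_union.mp hu with hu | hu
  · obtain ⟨X1, X2, X3, X5, h⟩ := theta_aux hP hQ hPQ hMP hwQ hu hR
    exact ⟨u, X1, X2, X3, X5, h⟩
  · have hMQ : Mini E α Q b := by
      rcases hQ' with h | h
      · rw [h] at hu; exact absurd hu (Finset.notMem_empty _)
      · exact h
    have hwP : Wt E P b x := ⟨i, hi1, hi2.1⟩
    rw [Finset.union_comm] at hR
    obtain ⟨X1, X2, X3, X5, h⟩ := theta_aux hQ hP hPQ.symm hMQ hwP hu hR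
    exact ⟨u, X1, X2, X3, X5, h⟩

end Pool.Agent.R15.K3
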