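import Mathlib
import Pool.Agent.R15.K3.Piece

set_option autoImplicit false

namespace Pool.Agent.R15.K3

open Relation Classical

variable {V : Type*} {E : V → V → Prop} {H : Finset V} {y : V}

/-- a good structure inside the piece `(U, p)`: a minimal piece whose exit is `p`, or from whose exit
there are two disjoint walks, to `p` and back to the minimal piece -/
def Good (E : V → V → Prop) (H : Finset V) (y : V) (U : Finset V) (p : V) : Prop :=
  ∃ B x, B ⊆ U ∧ MinPiece E H y B x ∧ (x = p ∨ (x ∈ U ∧ ∃ T O, T ⊆ U \ insert x B ∧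
    O ⊆ U \ insert x B ∧ Disjoint T O ∧ Wt E T x p ∧ Wk E (fun c => ∃ b ∈ B, E c b) O x))

theorem avoid (S : Setup E H y) {U C : Finset V} {p t : V} (P : Piece E H y U p)
    (Q : Piece E H y C t) (hC : C ⊆ U) (ht : t ∈ U) : Wt E (U \ insert t C) t p := by
  obtain ⟨c, h1, h2⟩ := P.exit S ht
  obtain ⟨e, he, _, hec⟩ := h1.last (fun v => v ∈ insert t C) (Finset.mem_insert_self _ _)
    (U \ insert t C) (fun v hv hv' => Finset.mem_sdiff.mpr ⟨hv, hv'⟩)
  rw [Finset.mem_insert] at he
  rcases he with rfl | he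
  · exact ⟨c, hec, h2⟩
  · exfalso
    rcases hec.cases with h | ⟨n, hn, hnU, _⟩
    · subst h
      rcases Q.cl e he p h2 with h | h
      · exact P.xB (hC h)
      · exact P.xB (h ▸ ht)
    · rw [Finset.mem_sdiff, Finset.mem_insert, not_or] at hnU
      rcases Q.cl e he n hn with h | h
      · exact hnU.2.2 h
      · exact hnU.2.1 h

theorem good_step (S : Setup E H y) {U : Finset V} {p : V} (P : Piece E H y U p)
    (hno : ¬ Good E H y U p)
    (IH : ∀ C t, Piece E H y C t → C.card < U.card → Good E H y C t)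
    {B : Finset V} {x : V} (M : MinPiece E H y B x) (hB : B ⊆ U) :
    x ∈ U ∧ ∃ t B1, t ∈ U ∧ t ≠ x ∧ MinPiece E H y B1 t ∧ B1 ⊆ U ∧ ¬ Wt E (U.erase t) x p := by
  have hxp : x ≠ p := fun h => hno ⟨B, x, hB, M, Or.inl h⟩
  have hxU : x ∈ U := by
    obtain ⟨b, hb⟩ := M.1.ne
    obtain ⟨c, h1, h2⟩ := M.1.exit S hb
    have hc : c ∈ B := by
      rcases h1.mem with h | h
      · exact h ▸ hb
      · exact h
    rcases P.cl c (hB hc) x h2 with h | h
    · exact h
    · exact absurd h hxp
  refine ⟨hxU, ?_⟩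
  set X := U \ insert x B with hX
  have hXmem : ∀ v, v ∈ X ↔ v ∈ U ∧ v ≠ x ∧ v ∉ B := by
    intro v
    rw [hX, Finset.mem_sdiff, Finset.mem_insert, not_or]
  have hαX : Wk E (fun c => E c p) X x := avoid S P M.1 hB hxU
  have hxX : x ∉ X := fun h => ((hXmem x).mp h).2.1 rfl
  -- a separating vertex
  have sep : ∃ t, (t ∈ X ∨ t = p) ∧ ¬ Wk E (fun c => ∃ b ∈ B, E c b) (X.erase t) x ∧
      (t ∈ X → ¬ Wk E (fun c => E c p) (X.erase t) x) := by
    by_contra hcon
    push Not at hcon
    have hpX : p ∉ X := fun h => P.xB ((hXmem p).mp h).1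
    apply hno
    refine ⟨B, x, hB, M, Or.inr ⟨hxU, ?_⟩⟩
    have hβ : Wk E (fun c => ∃ b ∈ B, E c b) X x := by
      by_contra hnb
      have h1 : ¬ Wk E (fun c => ∃ b ∈ B, E c b) (X.erase p) x :=
        fun h => hnb (h.mono (Finset.erase_subset _ _))
      have := hcon p (Or.inr rfl) h1
      exact hpX this.1
    apply fan hxX hαX hβ
    intro t ht
    by_cases h1 : Wk E (fun c => ∃ b ∈ B, E c b) (X.erase t) x
    · exact Or.inr h1
    · exact Or.inl (hcon t (Or.inl ht) h1).2
  obtain ⟨t, ht, hsβ, hsα⟩ := sep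
  have htx : t ≠ x := by
    rcases ht with h | h
    · exact ((hXmem t).mp h).2.1
    · rw [h]; exact hxp.symm
  -- the piece C
  set C := insert x ((X.erase t).filter (fun c => Rch E (X.erase t) x c)) with hC
  have hCmem : ∀ c, c ∈ C ↔ c = x ∨ (c ∈ X.erase t ∧ Rch E (X.erase t) x c) := by
    intro c
    rw [hC, Finset.mem_insert, Finset.mem_filter]
  have hCr : ∀ c ∈ C, Rch E (X.erase t) x c := by
    intro c hc
    rcases (hCmem c).mp hc with rfl | h
    · exact Rch.refl
    · exact h.2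
  have hCU : C ⊆ U := by
    intro c hc
    rcases (hCmem c).mp hc with rfl | h
    · exact hxU
    · exact ((hXmem c).mp (Finset.mem_erase.mp h.1).2).1
  have hCB : ∀ c ∈ C, c ∉ B := by
    intro c hc
    rcases (hCmem c).mp hc with rfl | h
    · exact M.1.xB
    · exact ((hXmem c).mp (Finset.mem_erase.mp h.1).2).2.2
  have htC : t ∉ C := by
    intro h
    rcases (hCmem t).mp h with h | h
    · exact htx h
    · exact (Finset.notMem_erase _ _) h.1
  have PC : Piece E H y C t := by
    refine ⟨⟨x, Finset.mem_insert_self _ _⟩, hCU.trans P.sub, htC, fun h => P.yB (hCU h), ?_⟩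
    intro c hc d hd
    have hrc := hCr c hc
    rcases P.cl c (hCU hc) d hd with h | h
    · by_cases hdB : d ∈ B
      · exact absurd ⟨c, hrc, d, hdB, hd⟩ hsβ
      · by_cases hdt : d = t
        · exact Or.inr hdt
        · left
          rw [hCmem]
          by_cases hdx : d = x
          · exact Or.inl hdx
          · right
            have hde : d ∈ X.erase t := Finset.mem_erase.mpr ⟨hdt, (hXmem d).mpr ⟨h, hdx, hdB⟩⟩
            exact ⟨hde, hrc.step hd hde⟩
    · subst h
      rcases ht with ht | ht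
      · exact absurd ⟨c, hrc, hd⟩ (hsα ht)
      · exact Or.inr ht.symm
  have hlt : C.card < U.card := by
    apply Finset.card_lt_card
    refine ⟨hCU, ?_⟩
    intro h
    obtain ⟨b, hb⟩ := M.1.ne
    exact hCB b (h (hB hb)) hb
  obtain ⟨B1, x1, hB1, M1, hx1⟩ := IH C t PC hlt
  have hx1t : x1 = t := by
    rcases hx1 with h | ⟨hx1C, T, O, hT, hO, hTO, hwT, hwO⟩
    · exact h
    · exfalso
      apply hno
      have hsub : C \ insert x1 B1 ⊆ U \ insert x1 B1 := by
        intro v hv
        rw [Finset.mem_sdiff] at hv ⊢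
        exact ⟨hCU hv.1, hv.2⟩
      refine ⟨B1, x1, hB1.trans hCU, M1, Or.inr ⟨hCU hx1C, ?_⟩⟩
      by_cases htp : t = p
      · subst htp
        exact ⟨T, O, hT.trans hsub, hO.trans hsub, hTO, hwT, hwO⟩
      · have htU : t ∈ U := by
          rcases ht with h | h
          · exact ((hXmem t).mp h).1
          · exact absurd h htp
        have hav := avoid S P PC hCU htU
        have hmU : ∀ v, v ∈ T ∪ insert t (U \ insert t C) ↔
            v ∈ T ∨ v = t ∨ (v ∈ U ∧ v ≠ t ∧ v ∉ C) := by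
          intro v
          rw [Finset.mem_union, Finset.mem_insert, Finset.mem_sdiff, Finset.mem_insert (a := v)
            (b := t) (s := C), not_or]
        refine ⟨T ∪ insert t (U \ insert t C), O, ?_, hO.trans hsub, ?_, ?_, hwO⟩
        · intro v hv
          rw [hmU] at hv
          rw [Finset.mem_sdiff, Finset.mem_insert, not_or]
          rcases hv with h | h | h
          · have hvC := (Finset.mem_sdiff.mp (hT h)).1
            have hvN := (Finset.mem_sdiff.mp (hT h)).2
            exact ⟨hCU hvC, fun h' => hvN (Finset.mem_insert.mpr (Or.inl h')),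
              fun h' => hvN (Finset.mem_insert.mpr (Or.inr h'))⟩
          · subst h
            exact ⟨htU, fun h => htC (h ▸ hx1C), fun h => htC (hB1 h)⟩
          · exact ⟨h.1, fun h' => h.2.2 (h' ▸ hx1C), fun h' => h.2.2 (hB1 h')⟩
        · rw [Finset.disjoint_left]
          intro v hv hv'
          have hvC : v ∈ C := (Finset.mem_sdiff.mp (hO hv')).1
          rw [hmU] at hv
          rcases hv with h | h | h
          · exact (Finset.disjoint_left.mp hTO h) hv'
          · exact htC (h ▸ hvC)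
          · exact h.2.2 hvC
        · obtain ⟨c1, k1, k2⟩ := hwT
          obtain ⟨c2, k3, k4⟩ := hav
          refine ⟨c2, ?_, k4⟩
          refine ((k1.mono Finset.subset_union_left).step k2 ?_).trans (k3.mono ?_)
          · rw [Finset.mem_union]; exact Or.inr (Finset.mem_insert_self _ _)
          · intro v hv
            rw [Finset.mem_union]; exact Or.inr (Finset.mem_insert_of_mem hv)
  subst hx1t
  have htU : x1 ∈ U := by
    rcases ht with h | h
    · exact ((hXmem x1).mp h).1
    · exact absurd ⟨B1, x1, hB1.trans hCU, M1, Or.inl h⟩ hno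
  refine ⟨x1, B1, htU, htx, M1, hB1.trans hCU, ?_⟩
  rintro ⟨c, h1, h2⟩
  -- the walk stays in C
  have : c ∈ C := by
    refine h1.inv (fun v => v ∈ C) (Finset.mem_insert_self _ _) ?_
    intro a b ha hab hb
    rcases PC.cl a ha b hab with h | h
    · exact h
    · exact absurd h (Finset.mem_erase.mp hb).1
  rcases PC.cl c this p h2 with h | h
  · exact P.xB (hCU h)
  · exact P.xB (h ▸ htU)

theorem good (S : Setup E H y) : ∀ (n : ℕ) (U : Finset V) (p : V), U.card = n →
    Piece E H y U p → Good E H y U p := by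
  intro n
  induction n using Nat.strong_induction_on with
  | _ n ih =>
    intro U p hn P
    by_contra hno
    have IH : ∀ C t, Piece E H y C t → C.card < U.card → Good E H y C t :=
      fun C t hC hc => ih _ (hn ▸ hc) C t rfl hC
    let Dom : V → Finset V := fun x => U.filter (fun t => t ≠ x ∧ ¬ Wt E (U.erase t) x p)
    have hDom : ∀ x t, t ∈ Dom x ↔ t ∈ U ∧ t ≠ x ∧ ¬ Wt E (U.erase t) x p :=
      fun x t => Finset.mem_filter
    have key : ∀ (k : ℕ) (B : Finset V) (x : V), (Dom x).card = k → MinPiece E H y B x → B ⊆ U →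
        False := by
      intro k
      induction k using Nat.strong_induction_on with
      | _ k ih2 =>
        intro B x hk M hB
        obtain ⟨hxU, t, B1, htU, htx, M1, hB1, hsep⟩ := good_step S P hno IH M hB
        refine ih2 (Dom t).card ?_ B1 t rfl M1 hB1
        rw [← hk]
        apply Finset.card_lt_card
        refine ⟨?_, ?_⟩
        · intro s hs
          rw [hDom] at hs ⊢
          obtain ⟨s1, s2, s3⟩ := hs
          have hsx : s ≠ x := by
            rintro rfl
            -- a walk from s to p avoids s or t from some point on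
            obtain ⟨c, h1, h2⟩ := P.exit S s1
            obtain ⟨e, he, _, hec⟩ := h1.last (fun v => v = s ∨ v = t) (Or.inl rfl)
              ((U.erase s).erase t) (by
                intro v hv hv'
                rw [not_or] at hv'
                rw [Finset.mem_erase, Finset.mem_erase]
                exact ⟨hv'.2, hv'.1, hv⟩)
            rcases he with rfl | rfl
            · apply hsep
              refine ⟨c, hec.mono ?_, h2⟩
              intro v hv
              rw [Finset.mem_erase, Finset.mem_erase] at hv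
              rw [Finset.mem_erase]
              exact ⟨hv.1, hv.2.2⟩
            · apply s3
              refine ⟨c, hec.mono ?_, h2⟩
              intro v hv
              rw [Finset.mem_erase, Finset.mem_erase] at hv
              rw [Finset.mem_erase]
              exact ⟨hv.2.1, hv.2.2⟩
          refine ⟨s1, hsx, ?_⟩
          rintro ⟨c, h1, h2⟩
          rcases h1.first (fun v => v = t) ((U.erase s).erase t) (by
              intro v hv hv'
              rw [Finset.mem_erase] at hv
              rw [Finset.mem_erase, Finset.mem_erase]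
              exact ⟨hv', hv⟩) with h | ⟨d, q, _, _, _, h4, h5⟩
          · apply hsep
            refine ⟨c, h.mono ?_, h2⟩
            intro v hv
            rw [Finset.mem_erase, Finset.mem_erase] at hv
            rw [Finset.mem_erase]
            exact ⟨hv.1, hv.2.2⟩
          · subst h4
            exact s3 ⟨c, h5, h2⟩
        · intro h
          have h1 : t ∈ Dom x := (hDom x t).mpr ⟨htU, htx, hsep⟩
          have h2 := h h1
          rw [hDom] at h2
          exact h2.2.1 rfl
    obtain ⟨B, x, hB, M⟩ := exists_minPiece P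
    exact key _ B x rfl M hB

/-- the structure found: a subdivision of the bidirected triangle minus the arc from `w` to `u`,
and a walk from `w` to `y` disjoint from it -/
theorem main (S : Setup E H y) (h2 : ∃ a ∈ H, a ≠ y) :
    ∃ w v u X1 X2 X3 X4 X5 T, w ∈ H ∧ v ∈ H ∧ u ∈ H ∧ w ≠ v ∧ w ≠ u ∧ u ≠ v ∧
      (X1 ⊆ H ∧ X2 ⊆ H ∧ X3 ⊆ H ∧ X4 ⊆ H ∧ X5 ⊆ H ∧ T ⊆ H) ∧
      (∀ a ∈ [w, v, u], a ∉ X1 ∧ a ∉ X2 ∧ a ∉ X3 ∧ a ∉ X4 ∧ a ∉ X5 ∧ a ∉ T) ∧
      List.Pairwise Disjoint [X1, X2, X3, X4, X5, T] ∧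
      Wt E X1 u v ∧ Wt E X2 v u ∧ Wt E X3 v w ∧ Wt E X4 w v ∧ Wt E X5 u w ∧
      (w = y ∧ T = ∅ ∨ (y ∈ T ∧ Rch E T w y)) := by
  have hHne : (H.erase y).Nonempty := by
    obtain ⟨a, ha, hay⟩ := h2
    exact ⟨a, Finset.mem_erase.mpr ⟨hay, ha⟩⟩
  have PU : Piece E H y (H.erase y) y := by
    refine ⟨hHne, Finset.erase_subset _ _, Finset.notMem_erase _ _, Finset.notMem_erase _ _, ?_⟩
    intro a _ c hc
    by_cases hcy : c = y
    · exact Or.inr hcy
    · exact Or.inl (Finset.mem_erase.mpr ⟨hcy, (S.supp _ _ hc).2⟩)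
  obtain ⟨B, x, hB, M, hx⟩ := good S _ _ _ rfl PU
  have hBH : B ⊆ H := M.1.sub
  -- the return walk
  have ret : ∃ O T, O ⊆ H ∧ T ⊆ H ∧ (∀ b ∈ B, b ∉ O ∧ b ∉ T) ∧ x ∉ O ∧ x ∉ T ∧ Disjoint O T ∧
      Wk E (fun c => ∃ b ∈ B, E c b) O x ∧ (x = y ∧ T = ∅ ∨ (y ∈ T ∧ Rch E T x y)) := by
    rcases hx with rfl | ⟨hxU, T, O, hT, hO, hTO, hwT, hwO⟩
    · obtain ⟨b, hb⟩ := M.1.ne
      refine ⟨(H \ B).erase x, ∅, ?_, by simp, ?_, Finset.notMem_erase _ _, by simp, by simp, ?_,
        Or.inl ⟨rfl, rfl⟩⟩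
      · exact (Finset.erase_subset _ _).trans Finset.sdiff_subset
      · intro b hb
        refine ⟨?_, by simp⟩
        rw [Finset.mem_erase, Finset.mem_sdiff]
        exact fun h => h.2.2 hb
      · rcases (S.strong x S.yH b (hBH hb)).first (fun v => v ∈ B) (H \ B)
          (fun v hv hv' => Finset.mem_sdiff.mpr ⟨hv, hv'⟩) with h | ⟨d, q, h1, k2, _, h4, _⟩
        · exfalso
          rcases h.mem with h | h
          · exact M.1.xB (h ▸ hb)
          · exact (Finset.mem_sdiff.mp h).2 hb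
        · obtain ⟨e, he, _, hed⟩ := h1.last (fun v => v = x) rfl ((H \ B).erase x)
            (fun v hv hv' => Finset.mem_erase.mpr ⟨hv', hv⟩)
          rw [he] at hed
          exact ⟨d, hed, q, h4, k2⟩
    · have hsub : ∀ v ∈ H.erase y \ insert x B, v ∈ H ∧ v ≠ y ∧ v ≠ x ∧ v ∉ B := by
        intro v hv
        rw [Finset.mem_sdiff, Finset.mem_erase, Finset.mem_insert, not_or] at hv
        exact ⟨hv.1.2, hv.1.1, hv.2.1, hv.2.2⟩
      have hxy : x ≠ y := (Finset.mem_erase.mp hxU).1
      refine ⟨O, insert y T, fun v hv => (hsub v (hO hv)).1, ?_, ?_, fun h => (hsub x (hO h)).2.2.1 rfl,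
        ?_, ?_, hwO, Or.inr ⟨Finset.mem_insert_self _ _, ?_⟩⟩
      · intro v hv
        rcases Finset.mem_insert.mp hv with rfl | hv
        · exact S.yH
        · exact (hsub v (hT hv)).1
      · intro b hb
        refine ⟨fun h => (hsub b (hO h)).2.2.2 hb, ?_⟩
        intro h
        rcases Finset.mem_insert.mp h with rfl | h
        · exact M.1.yB hb
        · exact (hsub b (hT h)).2.2.2 hb
      · intro h
        rcases Finset.mem_insert.mp h with h | h
        · exact hxy h
        · exact (hsub x (hT h)).2.2.1 rfl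
      · rw [Finset.disjoint_left]
        intro v hv hv'
        rcases Finset.mem_insert.mp hv' with rfl | hv'
        · exact (hsub v (hO hv)).2.1 rfl
        · exact (Finset.disjoint_left.mp hTO hv') hv
      · obtain ⟨c, k1, k2⟩ := hwT
        exact (k1.mono (Finset.subset_insert _ _)).step k2 (Finset.mem_insert_self _ _)
  obtain ⟨O, T, hO, hT, hBO, hxO, hxT, hOT, ⟨c, hc, b, hb, hcb⟩, htail⟩ := ret
  obtain ⟨u, X1, X2, X3, X5, Θ⟩ := M.theta S hb
  have hsB : ∀ X : Finset V, X ⊆ (B.erase b).erase u → X ⊆ H ∧ b ∉ X ∧ u ∉ X ∧ x ∉ X ∧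
      (∀ v ∈ X, v ∈ B) := by
    intro X hX
    have h : ∀ v ∈ X, v ≠ u ∧ v ≠ b ∧ v ∈ B := by
      intro v hv
      have := hX hv
      rw [Finset.mem_erase, Finset.mem_erase] at this
      exact this
    exact ⟨fun v hv => hBH (h v hv).2.2, fun hh => (h _ hh).2.1 rfl, fun hh => (h _ hh).1 rfl,
      fun hh => M.1.xB (h _ hh).2.2, fun v hv => (h v hv).2.2⟩
  obtain ⟨a1, b1, c1, d1, e1⟩ := hsB X1 Θ.s1
  obtain ⟨a2, b2, c2, d2, e2⟩ := hsB X2 Θ.s2
  obtain ⟨a3, b3, c3, d3, e3⟩ := hsB X3 Θ.s3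
  obtain ⟨a5, b5, c5, d5, e5⟩ := hsB X5 Θ.s5
  have dO : ∀ X : Finset V, (∀ v ∈ X, v ∈ B) → Disjoint X O := by
    intro X hX
    rw [Finset.disjoint_left]
    exact fun v hv hv' => (hBO v (hX v hv)).1 hv'
  have dT : ∀ X : Finset V, (∀ v ∈ X, v ∈ B) → Disjoint X T := by
    intro X hX
    rw [Finset.disjoint_left]
    exact fun v hv hv' => (hBO v (hX v hv)).2 hv'
  refine ⟨x, b, u, X1, X2, X3, O, X5, T, M.1.xH S, hBH hb, hBH Θ.uB, ?_, ?_, Θ.ub,
    ⟨a1, a2, a3, hO, a5, hT⟩, ?_, ?_, Θ.w1, Θ.w2, Θ.w3, ⟨c, hc, hcb⟩, Θ.w5, htail⟩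
  · rintro rfl; exact M.1.xB hb
  · rintro rfl; exact M.1.xB Θ.uB
  · intro a ha
    simp only [List.mem_cons, List.not_mem_nil, or_false] at ha
    rcases ha with rfl | rfl | rfl
    · exact ⟨d1, d2, d3, hxO, d5, hxT⟩
    · exact ⟨b1, b2, b3, (hBO _ hb).1, b5, (hBO _ hb).2⟩
    · exact ⟨c1, c2, c3, (hBO _ Θ.uB).1, c5, (hBO _ Θ.uB).2⟩
  · simp only [List.pairwise_cons, List.mem_cons, List.not_mem_nil, or_false, forall_eq_or_imp,
      forall_eq, IsEmpty.forall_iff, implies_true, List.Pairwise.nil, and_true]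
    exact ⟨⟨Θ.d12, Θ.d13, dO X1 e1, Θ.d15, dT X1 e1⟩, ⟨Θ.d23, dO X2 e2, Θ.d25, dT X2 e2⟩,
      ⟨dO X3 e3, Θ.d35, dT X3 e3⟩, ⟨(dO X5 e5).symm, hOT⟩, dT X5 e5⟩

end Pool.Agent.R15.K3
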