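import Mathlib
import Pool.Agent.R15.K3.Good

set_option autoImplicit false

namespace Pool.Agent.R15.K3

open Relation Classical

variable {V : Type*}

/-! ### from walks to lists -/

theorem rch_list {D : V → V → Prop} : ∀ (n : ℕ) (X : Finset V) (a c b : V), X.card = n →
    Rch D X a c → a ∉ X → D c b → ∃ l : List V, l.Nodup ∧ (∀ v ∈ l, v ∈ X) ∧
      ∀ p ∈ (a :: l ++ [b]).zip (l ++ [b]), D p.1 p.2 := by
  intro n
  induction n using Nat.strong_induction_on with
  | _ n ih =>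
    intro X a c b hn h ha hcb
    rcases h.cases with h | ⟨m, h1, h2, h3⟩
    · subst h
      refine ⟨[], List.nodup_nil, by simp, ?_⟩
      intro p hp
      simp only [List.nil_append, List.zip_cons_cons, List.cons_append,
        List.zip_nil_right, List.mem_cons, List.not_mem_nil, or_false] at hp
      rw [hp]
      exact hcb
    · obtain ⟨e, he, _, he'⟩ := h3.last (fun v => v = m) rfl (X.erase m)
        (fun v hv hv' => Finset.mem_erase.mpr ⟨hv', hv⟩)
      rw [he] at he'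
      have hc : (X.erase m).card < n := by
        rw [← hn]; exact Finset.card_erase_lt_of_mem h2
      obtain ⟨l, l1, l2, l3⟩ := ih _ hc (X.erase m) m c b rfl he' (Finset.notMem_erase _ _) hcb
      refine ⟨m :: l, ?_, ?_, ?_⟩
      · rw [List.nodup_cons]
        exact ⟨fun hm => (Finset.mem_erase.mp (l2 m hm)).1 rfl, l1⟩
      · intro v hv
        rcases List.mem_cons.mp hv with rfl | hv
        · exact h2
        · exact (Finset.mem_erase.mp (l2 v hv)).2
      · intro p hp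
        rw [List.cons_append, List.cons_append, List.zip_cons_cons, List.mem_cons] at hp
        rcases hp with rfl | hp
        · exact h1
        · exact l3 p hp

theorem wt_list {D : V → V → Prop} {X : Finset V} {a b : V} (h : Wt D X a b) (ha : a ∉ X) :
    ∃ l : List V, l.Nodup ∧ (∀ v ∈ l, v ∈ X) ∧
      ∀ p ∈ (a :: l ++ [b]).zip (l ++ [b]), D p.1 p.2 := by
  obtain ⟨c, h1, h2⟩ := h
  exact rch_list _ X a c b rfl h1 ha h2

theorem k3_of_sets {D : V → V → Prop} {u v w : V} {X1 X2 X3 X4 X5 X6 : Finset V}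
    (huv : u ≠ v) (hwv : w ≠ v) (hwu : w ≠ u)
    (hn : ∀ a ∈ [w, v, u], a ∉ X1 ∧ a ∉ X2 ∧ a ∉ X3 ∧ a ∉ X4 ∧ a ∉ X5 ∧ a ∉ X6)
    (hd : List.Pairwise Disjoint [X1, X2, X3, X4, X5, X6])
    (h1 : Wt D X1 u v) (h2 : Wt D X2 v u) (h3 : Wt D X3 v w) (h4 : Wt D X4 w v)
    (h5 : Wt D X5 u w) (h6 : Wt D X6 w u) :
    ∃ (a b c : V) (l₁ l₂ l₃ l₄ l₅ l₆ : List V),
      ([a, b, c] ++ l₁ ++ l₂ ++ l₃ ++ l₄ ++ l₅ ++ l₆).Nodup ∧
      (∀ p ∈ (a :: l₁ ++ [b]).zip (l₁ ++ [b]), D p.1 p.2) ∧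
      (∀ p ∈ (b :: l₂ ++ [a]).zip (l₂ ++ [a]), D p.1 p.2) ∧
      (∀ p ∈ (b :: l₃ ++ [c]).zip (l₃ ++ [c]), D p.1 p.2) ∧
      (∀ p ∈ (c :: l₄ ++ [b]).zip (l₄ ++ [b]), D p.1 p.2) ∧
      (∀ p ∈ (a :: l₅ ++ [c]).zip (l₅ ++ [c]), D p.1 p.2) ∧
      (∀ p ∈ (c :: l₆ ++ [a]).zip (l₆ ++ [a]), D p.1 p.2) := by
  obtain ⟨nw1, nw2, nw3, nw4, nw5, nw6⟩ := hn w (by simp)
  obtain ⟨nv1, nv2, nv3, nv4, nv5, nv6⟩ := hn v (by simp)
  obtain ⟨nu1, nu2, nu3, nu4, nu5, nu6⟩ := hn u (by simp)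
  obtain ⟨l1, a1, b1, c1⟩ := wt_list h1 nu1
  obtain ⟨l2, a2, b2, c2⟩ := wt_list h2 nv2
  obtain ⟨l3, a3, b3, c3⟩ := wt_list h3 nv3
  obtain ⟨l4, a4, b4, c4⟩ := wt_list h4 nw4
  obtain ⟨l5, a5, b5, c5⟩ := wt_list h5 nu5
  obtain ⟨l6, a6, b6, c6⟩ := wt_list h6 nw6
  refine ⟨u, v, w, l1, l2, l3, l4, l5, l6, ?_, c1, c2, c3, c4, c5, c6⟩
  simp only [List.pairwise_cons, List.mem_cons, List.not_mem_nil, or_false, forall_eq_or_imp,
      forall_eq, IsEmpty.forall_iff, implies_true, List.Pairwise.nil, and_true] at hd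
  obtain ⟨⟨d12, d13, d14, d15, d16⟩, ⟨d23, d24, d25, d26⟩, ⟨d34, d35, d36⟩, ⟨d45, d46⟩, d56⟩ := hd
  have dl : ∀ {X Y : Finset V} {l l' : List V}, Disjoint X Y → (∀ v ∈ l, v ∈ X) →
      (∀ v ∈ l', v ∈ Y) → ∀ v ∈ l, v ∉ l' :=
    fun hXY hl hl' v hv hv' => Finset.disjoint_left.mp hXY (hl v hv) (hl' v hv')
  have e12 := dl d12 b1 b2
  have e13 := dl d13 b1 b3
  have e14 := dl d14 b1 b4
  have e15 := dl d15 b1 b5
  have e16 := dl d16 b1 b6
  have e23 := dl d23 b2 b3
  have e24 := dl d24 b2 b4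
  have e25 := dl d25 b2 b5
  have e26 := dl d26 b2 b6
  have e34 := dl d34 b3 b4
  have e35 := dl d35 b3 b5
  have e36 := dl d36 b3 b6
  have e45 := dl d45 b4 b5
  have e46 := dl d46 b4 b6
  have e56 := dl d56 b5 b6
  have n : ∀ {x : V} {X : Finset V} {l : List V}, x ∉ X → (∀ v ∈ l, v ∈ X) → x ∉ l :=
    fun hx hl h => hx (hl _ h)
  have n1 := n nu1 b1
  have n2 := n nu2 b2
  have n3 := n nu3 b3
  have n4 := n nu4 b4
  have n5 := n nu5 b5
  have n6 := n nu6 b6
  have m1 := n nv1 b1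
  have m2 := n nv2 b2
  have m3 := n nv3 b3
  have m4 := n nv4 b4
  have m5 := n nv5 b5
  have m6 := n nv6 b6
  have k1 := n nw1 b1
  have k2 := n nw2 b2
  have k3 := n nw3 b3
  have k4 := n nw4 b4
  have k5 := n nw5 b5
  have k6 := n nw6 b6
  have nd : ∀ {l l' : List V}, l.Nodup → l'.Nodup → (∀ v ∈ l', v ∉ l) → (l ++ l').Nodup := by
    intro l l' h h' hd
    exact List.Nodup.append h h' (fun v hv hv' => hd v hv' hv)
  have base : ([u, v, w] : List V).Nodup := by
    simp only [List.nodup_cons, List.mem_cons, List.not_mem_nil, or_false, not_or,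
      List.nodup_nil, not_false_eq_true, and_true]
    exact ⟨⟨huv, hwu.symm⟩, hwv.symm⟩
  have mb : ∀ {l : List V}, u ∉ l → v ∉ l → w ∉ l → ∀ z ∈ l, z ∉ ([u, v, w] : List V) := by
    intro l hu hv hw z hz hz'
    simp only [List.mem_cons, List.not_mem_nil, or_false] at hz'
    rcases hz' with rfl | rfl | rfl
    · exact hu hz
    · exact hv hz
    · exact hw hz
  have ma : ∀ {l l' l'' : List V}, (∀ z ∈ l, z ∉ l') → (∀ z ∈ l'', z ∉ l) → ∀ z ∈ l, z ∉ l' ++ l'' := by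
    intro l l' l'' h h' z hz hz'
    rcases List.mem_append.mp hz' with hz' | hz'
    · exact h z hz hz'
    · exact h' z hz' hz
  exact nd (nd (nd (nd (nd (nd base a1 (mb n1 m1 k1)) a2 (ma (mb n2 m2 k2) e12)) a3
    (ma (ma (mb n3 m3 k3) e13) e23)) a4 (ma (ma (ma (mb n4 m4 k4) e14) e24) e34)) a5
    (ma (ma (ma (ma (mb n5 m5 k5) e15) e25) e35) e45)) a6
    (ma (ma (ma (ma (ma (mb n6 m6 k6) e16) e26) e36) e46) e56)

/-! ### colourings -/

/-- the arcs of `D` inside `H` between vertices with the same colour -/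
def Mo (D : V → V → Prop) (H : Finset V) (f : V → ℕ) (a b : V) : Prop :=
  D a b ∧ a ∈ H ∧ b ∈ H ∧ f a = f b

/-- `H` can be coloured with `k` colours without monochromatic directed cycle -/
def Cl (D : V → V → Prop) (H : Finset V) (k : ℕ) : Prop :=
  ∃ f : V → ℕ, (∀ v, f v < k) ∧ ∀ v, ¬ TransGen (Mo D H f) v v

theorem Cl.mono {D : V → V → Prop} {H H' : Finset V} {k : ℕ} (h : H' ⊆ H) (hc : Cl D H k) :
    Cl D H' k := by
  obtain ⟨f, f1, f2⟩ := hc
  refine ⟨f, f1, fun v hv => f2 v (TransGen.mono (fun a b hab => ?_) _ _ hv)⟩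
  exact ⟨hab.1, h hab.2.1, h hab.2.2.1, hab.2.2.2⟩

/-- `H` is a minimal set that cannot be coloured with `k` colours -/
def Cr (D : V → V → Prop) (H : Finset V) (k : ℕ) : Prop :=
  ¬ Cl D H k ∧ ∀ H' ⊂ H, Cl D H' k

theorem exists_cr {D : V → V → Prop} {k : ℕ} : ∀ (n : ℕ) (H : Finset V), H.card = n →
    ¬ Cl D H k → ∃ H' ⊆ H, Cr D H' k := by
  intro n
  induction n using Nat.strong_induction_on with
  | _ n ih =>
    intro H hn hc
    by_cases h : ∀ H' ⊂ H, Cl D H' k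
    · exact ⟨H, subset_rfl, hc, h⟩
    · push Not at h
      obtain ⟨H', hH, hc'⟩ := h
      obtain ⟨H2, h1, h2⟩ := ih _ (hn ▸ Finset.card_lt_card hH) H' rfl hc'
      exact ⟨H2, h1.trans hH.1, h2⟩

theorem Cr.strong {D : V → V → Prop} {H : Finset V} {k : ℕ} (h : Cr D H k) {a b : V} (ha : a ∈ H)
    (hb : b ∈ H) : Rch D H a b := by
  by_contra hno
  set A := H.filter (fun c => Rch D H a c) with hA
  have hmA : ∀ c, c ∈ A ↔ c ∈ H ∧ Rch D H a c := fun c => by rw [hA, Finset.mem_filter]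
  have hAs : A ⊂ H := by
    refine ⟨Finset.filter_subset _ _, fun h' => hno ((hmA b).mp (h' hb)).2⟩
  have hBs : H \ A ⊂ H := by
    refine ⟨Finset.sdiff_subset, fun h' => ?_⟩
    exact (Finset.mem_sdiff.mp (h' ha)).2 ((hmA a).mpr ⟨ha, Rch.refl⟩)
  obtain ⟨f, f1, f2⟩ := h.2 A hAs
  obtain ⟨g, g1, g2⟩ := h.2 _ hBs
  apply h.1
  refine ⟨fun v => if v ∈ A then f v else g v, ?_, ?_⟩
  · intro v
    dsimp only
    split_ifs
    · exact f1 v
    · exact g1 v
  intro v hv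
  have key : ∀ x, TransGen (Mo D H fun v => if v ∈ A then f v else g v) v x → (v ∈ A → x ∈ A) := by
    intro x hx
    induction hx with
    | single h1 =>
      intro hvA
      obtain ⟨c1, c2, c3, _⟩ := h1
      exact (hmA _).mpr ⟨c3, ((hmA _).mp hvA).2.step c1 c3⟩
    | tail _ h1 ih =>
      intro hvA
      obtain ⟨c1, c2, c3, _⟩ := h1
      exact (hmA _).mpr ⟨c3, ((hmA _).mp (ih hvA)).2.step c1 c3⟩
  by_cases hvA : v ∈ A
  · apply f2 v
    have : ∀ x, TransGen (Mo D H fun v => if v ∈ A then f v else g v) v x →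
        TransGen (Mo D A f) v x := by
      intro x hx
      induction hx with
      | single h1 =>
        have hxA := key _ (TransGen.single h1) hvA
        obtain ⟨c1, c2, c3, c4⟩ := h1
        dsimp only at c4
        rw [if_pos hvA, if_pos hxA] at c4
        exact TransGen.single ⟨c1, hvA, hxA, c4⟩
      | tail h0 h1 ih =>
        have hbA := key _ h0 hvA
        have hxA := key _ (TransGen.tail h0 h1) hvA
        obtain ⟨c1, c2, c3, c4⟩ := h1
        dsimp only at c4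
        rw [if_pos hbA, if_pos hxA] at c4
        exact TransGen.tail ih ⟨c1, hbA, hxA, c4⟩
    exact this v hv
  · apply g2 v
    have : ∀ x, TransGen (Mo D H fun v => if v ∈ A then f v else g v) v x → x ∉ A →
        TransGen (Mo D (H \ A) g) v x := by
      intro x hx
      induction hx with
      | single h1 =>
        intro hxA
        obtain ⟨c1, c2, c3, c4⟩ := h1
        dsimp only at c4
        rw [if_neg hvA, if_neg hxA] at c4
        exact TransGen.single ⟨c1, Finset.mem_sdiff.mpr ⟨c2, hvA⟩, Finset.mem_sdiff.mpr ⟨c3, hxA⟩, c4⟩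
      | tail h0 h1 ih =>
        intro hxA
        obtain ⟨c1, c2, c3, c4⟩ := h1
        have hbA : _ ∉ A := fun hbA => hxA ((hmA _).mpr ⟨c3, ((hmA _).mp hbA).2.step c1 c3⟩)
        dsimp only at c4
        rw [if_neg hbA, if_neg hxA] at c4
        exact TransGen.tail (ih hbA)
          ⟨c1, Finset.mem_sdiff.mpr ⟨c2, hbA⟩, Finset.mem_sdiff.mpr ⟨c3, hxA⟩, c4⟩
    exact this v hv hvA

theorem Cr.deg {D : V → V → Prop} (hl : ∀ v, ¬ D v v) {H : Finset V} (h : Cr D H 2) {a : V}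
    (ha : a ∈ H) : ∃ c d, c ≠ d ∧ (D a c ∧ a ∈ H ∧ c ∈ H) ∧ (D a d ∧ a ∈ H ∧ d ∈ H) := by
  by_contra hcon
  have hone : ∀ c d, D a c → c ∈ H → D a d → d ∈ H → c = d := by
    intro c d h1 h2 h3 h4
    by_contra hcd
    exact hcon ⟨c, d, hcd, ⟨h1, ha, h2⟩, ⟨h3, ha, h4⟩⟩
  obtain ⟨f, f1, f2⟩ := h.2 (H.erase a) (Finset.erase_ssubset ha)
  -- a colour for a
  obtain ⟨q, hq, hqc⟩ : ∃ q < 2, ∀ c ∈ H, D a c → f c ≠ q := by
    by_cases hex : ∃ c ∈ H, D a c
    · obtain ⟨c, hc, hac⟩ := hex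
      refine ⟨1 - f c, by omega, ?_⟩
      intro d hd had
      have := hone c d hac hc had hd
      subst this
      have := f1 c
      omega
    · push Not at hex
      exact ⟨0, by omega, fun c hc hac => absurd hac (hex c hc)⟩
  set g : V → ℕ := fun v => if v = a then q else f v with hg
  have hno : ∀ x, ¬ Mo D H g a x := by
    rintro x ⟨c1, c2, c3, c4⟩
    have hxa : x ≠ a := fun e => hl a (e ▸ c1)
    rw [hg] at c4
    simp only [if_true, if_neg hxa] at c4
    exact hqc x c3 c1 c4.symm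
  apply h.1
  refine ⟨g, ?_, ?_⟩
  · intro v
    rw [hg]
    dsimp only
    split_ifs
    · exact hq
    · exact f1 v
  intro v hv
  have key : ∀ x, TransGen (Mo D H g) v x → x ≠ a → TransGen (Mo D (H.erase a) f) v x := by
    intro x hx
    induction hx with
    | @single x h1 =>
      intro hxa
      have hva : v ≠ a := fun e => hno x (e ▸ h1)
      obtain ⟨c1, c2, c3, c4⟩ := h1
      rw [hg] at c4
      simp only [if_neg hva, if_neg hxa] at c4
      exact TransGen.single ⟨c1, Finset.mem_erase.mpr ⟨hva, c2⟩, Finset.mem_erase.mpr ⟨hxa, c3⟩, c4⟩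
    | @tail b x h0 h1 ih =>
      intro hxa
      have hba : b ≠ a := fun e => hno x (e ▸ h1)
      obtain ⟨c1, c2, c3, c4⟩ := h1
      rw [hg] at c4
      simp only [if_neg hba, if_neg hxa] at c4
      exact TransGen.tail (ih hba)
        ⟨c1, Finset.mem_erase.mpr ⟨hba, c2⟩, Finset.mem_erase.mpr ⟨hxa, c3⟩, c4⟩
  have hva : v ≠ a := by
    rintro rfl
    obtain ⟨x, hx, _⟩ := TransGen.head'_iff.mp hv
    exact hno x hx
  exact f2 v (key v hv hva)

/-! ### breadth-first search -/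

/-- the vertices of `H` at distance at most `n` from `r` -/
noncomputable def Ball (D : V → V → Prop) (H : Finset V) (r : V) : ℕ → Finset V
  | 0 => {r}
  | n + 1 => H.filter (fun v => v ∈ Ball D H r n ∨ ∃ u ∈ Ball D H r n, D u v)

section bfs
variable {D : V → V → Prop} {H : Finset V} {r : V}

theorem Ball_sub (hr : r ∈ H) (n : ℕ) : Ball D H r n ⊆ H := by
  cases n with
  | zero => intro v hv; rw [Ball, Finset.mem_singleton] at hv; exact hv ▸ hr
  | succ n => rw [Ball]; exact Finset.filter_subset _ _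

theorem mem_Ball_succ {n : ℕ} {v : V} : v ∈ Ball D H r (n + 1) ↔
    v ∈ H ∧ (v ∈ Ball D H r n ∨ ∃ u ∈ Ball D H r n, D u v) := by
  rw [Ball, Finset.mem_filter]

theorem Ball_mono (hr : r ∈ H) (n : ℕ) : Ball D H r n ⊆ Ball D H r (n + 1) := by
  intro v hv
  rw [mem_Ball_succ]
  exact ⟨Ball_sub hr n hv, Or.inl hv⟩

theorem Ball_rch (hr : r ∈ H) (n : ℕ) : ∀ v ∈ Ball D H r n, Rch D (Ball D H r n) r v := by
  induction n with
  | zero =>
    intro v hv
    rw [Ball, Finset.mem_singleton] at hv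
    rw [hv]; exact Rch.refl
  | succ n ih =>
    intro v hv
    rcases (mem_Ball_succ.mp hv).2 with h | ⟨u, hu, huv⟩
    · exact (ih v h).mono (Ball_mono hr n)
    · exact ((ih u hu).mono (Ball_mono hr n)).step huv hv

theorem exists_Ball {v : V} (h : Rch D H r v) : ∃ n, v ∈ Ball D H r n := by
  apply h.inv (fun v => ∃ n, v ∈ Ball D H r n)
  · exact ⟨0, by rw [Ball]; exact Finset.mem_singleton_self _⟩
  · rintro a b ⟨n, hn⟩ hab hb
    exact ⟨n + 1, mem_Ball_succ.mpr ⟨hb, Or.inr ⟨a, hn, hab⟩⟩⟩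

/-- the distance from `r` -/
noncomputable def Lev (D : V → V → Prop) (H : Finset V) (r v : V) : ℕ :=
  sInf {n | v ∈ Ball D H r n}

theorem Lev_le {n : ℕ} {v : V} (h : v ∈ Ball D H r n) : Lev D H r v ≤ n := Nat.sInf_le h

theorem Lev_mem {v : V} (h : Rch D H r v) : v ∈ Ball D H r (Lev D H r v) :=
  Nat.sInf_mem (s := {n | v ∈ Ball D H r n}) (exists_Ball h)

theorem Lev_arc {a b : V} (ha : Rch D H r a) (hb : b ∈ H) (hab : D a b) :
    Lev D H r b ≤ Lev D H r a + 1 :=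
  Lev_le (mem_Ball_succ.mpr ⟨hb, Or.inr ⟨a, Lev_mem ha, hab⟩⟩)

/-- the vertices at distance exactly `j` from `r` -/
noncomputable def Layer (D : V → V → Prop) (H : Finset V) (r : V) (j : ℕ) : Finset V :=
  H.filter (fun v => Lev D H r v = j)

theorem mem_Layer {j : ℕ} {v : V} : v ∈ Layer D H r j ↔ v ∈ H ∧ Lev D H r v = j := by
  rw [Layer, Finset.mem_filter]

theorem bfs_col (hs : ∀ v ∈ H, Rch D H r v) (k : ℕ)
    (h : ∀ j, Cl D (Layer D H r j) k) : Cl D H (2 * k) := by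
  choose g g1 g2 using h
  have hlt : ∀ v, k * (Lev D H r v % 2) + g (Lev D H r v) v < 2 * k := by
    intro v
    have h1 := g1 (Lev D H r v) v
    rcases Nat.mod_two_eq_zero_or_one (Lev D H r v) with h2 | h2 <;> rw [h2] <;> omega
  refine ⟨fun v => k * (Lev D H r v % 2) + g (Lev D H r v) v, hlt, ?_⟩
  intro v hv
  -- the level does not increase along an arc
  have har : ∀ a b, Mo D H (fun v => k * (Lev D H r v % 2) + g (Lev D H r v) v) a b →
      Lev D H r b ≤ Lev D H r a ∧ g (Lev D H r a) a = g (Lev D H r b) b := by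
    rintro a b ⟨c1, c2, c3, c4⟩
    dsimp only at c4
    have h1 := Lev_arc (hs a c2) c3 c1
    have ga := g1 (Lev D H r a) a
    have gb := g1 (Lev D H r b) b
    have hm : Lev D H r a % 2 = Lev D H r b % 2 ∧ g (Lev D H r a) a = g (Lev D H r b) b := by
      rcases Nat.mod_two_eq_zero_or_one (Lev D H r a) with h2 | h2 <;>
        rcases Nat.mod_two_eq_zero_or_one (Lev D H r b) with h3 | h3 <;>
        rw [h2, h3] at c4 <;> rw [h2, h3] <;> constructor <;> first | rfl | omega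
    exact ⟨by omega, hm.2⟩
  have mono : ∀ x, TransGen (Mo D H (fun v => k * (Lev D H r v % 2) + g (Lev D H r v) v)) v x →
      Lev D H r x ≤ Lev D H r v := by
    intro x hx
    induction hx with
    | single h1 => exact (har _ _ h1).1
    | tail _ h1 ih => exact (har _ _ h1).1.trans ih
  have key : ∀ x, TransGen (Mo D H (fun v => k * (Lev D H r v % 2) + g (Lev D H r v) v)) v x →
      Lev D H r x = Lev D H r v →
      TransGen (Mo D (Layer D H r (Lev D H r v)) (g (Lev D H r v))) v x := by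
    intro x hx
    induction hx with
    | @single x h1 =>
      intro he
      have h2 := (har _ _ h1).2
      rw [he] at h2
      obtain ⟨c1, c2, c3, _⟩ := h1
      exact TransGen.single ⟨c1, mem_Layer.mpr ⟨c2, rfl⟩, mem_Layer.mpr ⟨c3, he⟩, h2⟩
    | @tail b x h0 h1 ih =>
      intro he
      have hb := mono _ h0
      have h2 := har _ _ h1
      have hb' : Lev D H r b = Lev D H r v := by omega
      obtain ⟨h2, h3⟩ := h2
      rw [he, hb'] at h3
      obtain ⟨c1, c2, c3, _⟩ := h1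
      exact TransGen.tail (ih hb') ⟨c1, mem_Layer.mpr ⟨c2, hb'⟩, mem_Layer.mpr ⟨c3, he⟩, h3⟩
  exact g2 _ v (key v hv rfl)

end bfs

/-- a digraph without subdivision of the bidirected triangle can be coloured with four colours -/
theorem four {D : V → V → Prop} (hl : ∀ v, ¬ D v v)
    (hno : ¬ ∃ (a b c : V) (l₁ l₂ l₃ l₄ l₅ l₆ : List V),
      ([a, b, c] ++ l₁ ++ l₂ ++ l₃ ++ l₄ ++ l₅ ++ l₆).Nodup ∧
      (∀ p ∈ (a :: l₁ ++ [b]).zip (l₁ ++ [b]), D p.1 p.2) ∧
      (∀ p ∈ (b :: l₂ ++ [a]).zip (l₂ ++ [a]), D p.1 p.2) ∧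
      (∀ p ∈ (b :: l₃ ++ [c]).zip (l₃ ++ [c]), D p.1 p.2) ∧
      (∀ p ∈ (c :: l₄ ++ [b]).zip (l₄ ++ [b]), D p.1 p.2) ∧
      (∀ p ∈ (a :: l₅ ++ [c]).zip (l₅ ++ [c]), D p.1 p.2) ∧
      (∀ p ∈ (c :: l₆ ++ [a]).zip (l₆ ++ [a]), D p.1 p.2)) (U : Finset V) : Cl D U 4 := by
  by_contra hU
  obtain ⟨G, _, hG⟩ := exists_cr _ U rfl hU
  have hne : G.Nonempty := by
    rw [Finset.nonempty_iff_ne_empty]
    rintro rfl
    apply hG.1
    refine ⟨fun _ => 0, fun _ => Nat.zero_lt_succ _, ?_⟩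
    intro v hv
    obtain ⟨x, hx, _⟩ := TransGen.head'_iff.mp hv
    exact Finset.notMem_empty _ hx.2.1
  obtain ⟨r, hr⟩ := hne
  have hs : ∀ v ∈ G, Rch D G r v := fun v hv => hG.strong hr hv
  obtain ⟨j, hj⟩ : ∃ j, ¬ Cl D (Layer D G r j) 2 := by
    by_contra hcon
    push Not at hcon
    exact hG.1 (bfs_col hs 2 hcon)
  obtain ⟨H, hH, hC⟩ := exists_cr _ _ rfl hj
  have hHG : H ⊆ G := fun v hv => (mem_Layer.mp (hH hv)).1
  have hHne : H.Nonempty := by
    rw [Finset.nonempty_iff_ne_empty]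
    rintro rfl
    apply hC.1
    refine ⟨fun _ => 0, fun _ => Nat.zero_lt_succ _, ?_⟩
    intro v hv
    obtain ⟨x, hx, _⟩ := TransGen.head'_iff.mp hv
    exact Finset.notMem_empty _ hx.2.1
  obtain ⟨h0, hh0⟩ := hHne
  -- the layer is not the first one
  have hj0 : j ≠ 0 := by
    rintro rfl
    obtain ⟨c, d, hcd, hc, hd⟩ := hC.deg hl hh0
    have hz : ∀ v ∈ H, v = r := by
      intro v hv
      have h1 := (mem_Layer.mp (hH hv)).2
      have h2 := Lev_mem (hs v (hHG hv))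
      rw [h1, Ball, Finset.mem_singleton] at h2
      exact h2
    exact hcd ((hz c hc.2.2).trans (hz d hd.2.2).symm)
  obtain ⟨i, rfl⟩ : ∃ i, j = i + 1 := ⟨j - 1, by omega⟩
  have hB : ∀ v ∈ Ball D G r i, v ∉ H := by
    intro v hv hv'
    have h1 := (mem_Layer.mp (hH hv')).2
    have h2 := Lev_le hv
    omega
  have hrH : r ∉ H := by
    intro h
    have h1 := (mem_Layer.mp (hH h)).2
    have h2 : Lev D G r r ≤ 0 := Lev_le (by rw [Ball]; exact Finset.mem_singleton_self _)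
    omega
  -- the exit
  obtain ⟨y, hy, _, hyr⟩ := (hG.strong (hHG hh0) hr).last (fun v => v ∈ H) hh0 (G \ H)
    (fun v hv hv' => Finset.mem_sdiff.mpr ⟨hv, hv'⟩)
  -- the entries
  have hin : ∀ u ∈ H, Wt D (G \ H) r u := by
    intro u hu
    have h1 := (mem_Layer.mp (hH hu)).2
    have h2 := Lev_mem (hs u (hHG hu))
    rw [h1, mem_Ball_succ] at h2
    rcases h2.2 with h3 | ⟨t, ht, htu⟩
    · exact absurd hu (hB u h3)
    · refine ⟨t, (Ball_rch hr i t ht).mono ?_, htu⟩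
      intro v hv
      exact Finset.mem_sdiff.mpr ⟨Ball_sub hr i hv, hB v hv⟩
  -- the setup
  have S : Setup (fun a b => D a b ∧ a ∈ H ∧ b ∈ H) H y := by
    refine ⟨fun a h => hl a h.1, fun a c h => h.2, fun a ha => hC.deg hl ha, ?_, hy⟩
    intro a ha b hb
    have h1 := hC.strong ha hb
    have : ∀ c, Rch D H a c → Rch (fun a b => D a b ∧ a ∈ H ∧ b ∈ H) H a c := by
      intro c hc
      unfold Rch at hc
      induction hc with
      | refl => exact Rch.refl
      | @tail p q h2 h3 ih =>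
        have hp : p ∈ H := by
          rcases Rch.mem (E := D) (X := H) h2 with h | h
          · rw [h]; exact ha
          · exact h
        exact ih.step ⟨h3.1, hp, h3.2⟩ h3.2
    exact this b h1
  have h2 : ∃ a ∈ H, a ≠ y := by
    obtain ⟨c, d, hcd, hc, hd⟩ := hC.deg hl hy
    by_cases h : c = y
    · exact ⟨d, hd.2.2, fun h' => hcd (h.trans h'.symm)⟩
    · exact ⟨c, hc.2.2, h⟩
  obtain ⟨w, v, u, X1, X2, X3, X4, X5, T, hw, hv, hu, hwv, hwu, huv, ⟨s1, s2, s3, s4, s5, sT⟩, hn,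
    hd, w1, w2, w3, w4, w5, htail⟩ := main S h2
  have toD : ∀ {X : Finset V} {a b : V}, Rch (fun a b => D a b ∧ a ∈ H ∧ b ∈ H) X a b →
      Rch D X a b := by
    intro X a b h
    exact ReflTransGen.mono (fun a b hab => ⟨hab.1.1, hab.2⟩) _ _ h
  have toW : ∀ {X : Finset V} {a b : V}, Wt (fun a b => D a b ∧ a ∈ H ∧ b ∈ H) X a b →
      Wt D X a b := by
    rintro X a b ⟨c, h1, h2⟩
    exact ⟨c, toD h1, h2.1⟩
  apply hno
  apply k3_of_sets (D := D) (X1 := X1) (X2 := X2) (X3 := X3) (X4 := X4) (X5 := X5)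
    (X6 := T ∪ (G \ H)) huv hwv hwu ?_ ?_ (toW w1) (toW w2) (toW w3) (toW w4) (toW w5)
  · -- the last walk
    have hwy : Rch D (T ∪ (G \ H)) w y := by
      rcases htail with ⟨h, _⟩ | ⟨_, h⟩
      · rw [h]; exact Rch.refl
      · exact (toD h).mono Finset.subset_union_left
    obtain ⟨t, ht1, ht2⟩ := hin u hu
    exact ⟨t, (hwy.trans (hyr.mono Finset.subset_union_right)).trans
      (ht1.mono Finset.subset_union_right), ht2⟩
  · intro a ha
    have haH : a ∈ H := by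
      simp only [List.mem_cons, List.not_mem_nil, or_false] at ha
      rcases ha with rfl | rfl | rfl
      · exact hw
      · exact hv
      · exact hu
    obtain ⟨n1, n2, n3, n4, n5, n6⟩ := hn a ha
    refine ⟨n1, n2, n3, n4, n5, ?_⟩
    intro h
    rcases Finset.mem_union.mp h with h | h
    · exact n6 h
    · exact (Finset.mem_sdiff.mp h).2 haH
  · simp only [List.pairwise_cons, List.mem_cons, List.not_mem_nil, or_false, forall_eq_or_imp,
      forall_eq, IsEmpty.forall_iff, implies_true, List.Pairwise.nil, and_true] at hd ⊢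
    obtain ⟨⟨d12, d13, d14, d15, d16⟩, ⟨d23, d24, d25, d26⟩, ⟨d34, d35, d36⟩, ⟨d45, d46⟩, d56⟩ := hd
    have dd : ∀ {X : Finset V}, X ⊆ H → Disjoint X T → Disjoint X (T ∪ (G \ H)) := by
      intro X hX hXT
      rw [Finset.disjoint_left] at hXT ⊢
      intro z hz hz'
      rcases Finset.mem_union.mp hz' with h | h
      · exact hXT hz h
      · exact (Finset.mem_sdiff.mp h).2 (hX hz)
    exact ⟨⟨d12, d13, d14, d15, dd s1 d16⟩, ⟨d23, d24, d25, dd s2 d26⟩, ⟨d34, d35, dd s3 d36⟩,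
      ⟨d45, dd s4 d46⟩, dd s5 d56⟩

end Pool.Agent.R15.K3
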